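import Pool.Agent.Y195.LM.Stm

/-!
# Project LM: task NEZ
-/

set_option autoImplicit false

open Set Complex
open scoped ComplexConjugate Real

namespace Pool.Agent.Y884.LM.Nez

open Pool.Agent.Y195.LM

/-- restriction of a complex derivative to the imaginary axis -/
theorem axis {F : ℂ → ℂ} {F' : ℂ} {θ : ℝ} (h : HasDerivAt F F' (θ * I)) :
    HasDerivAt (fun t : ℝ => F (t * I)) (I * F') θ := by
  have h1 : HasDerivAt (fun t : ℝ => (t : ℂ) * I) (1 * I) θ :=
    (Complex.ofRealCLM.hasDerivAt (x := θ)).mul_const I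
  have h2 := HasDerivAt.comp_of_eq θ h h1 rfl
  exact h2.congr_deriv (by ring)

/-- NEZ -/
theorem t : S_NEZ := by
  intro F q q1 hF hq hq0 hper
  by_contra hcon
  push Not at hcon
  obtain ⟨Q, hQ⟩ : ∃ Q : ℝ → ℂ, Q = fun t : ℝ => q (t * I) := ⟨_, rfl⟩
  have hQd : ∀ t : ℝ, HasDerivAt Q (I * q1 (t * I)) t := by
    intro t
    rw [hQ]
    exact axis (hq t)
  have hQ0 : ∀ t : ℝ, Q t ≠ 0 := by
    intro t
    rw [hQ]
    exact hq0 t
  have hQc0 : ∀ t : ℝ, conj (Q t) ≠ 0 := fun t => (map_ne_zero _).2 (hQ0 t)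
  have hQcd : ∀ t : ℝ, HasDerivAt (fun t => conj (Q t)) (conj (I * q1 (t * I))) t :=
    fun t => (Complex.conjCLE.hasFDerivAt (x := Q t)).comp_hasDerivAt t (hQd t)
  have hre : ∀ t : ℝ, q1 (t * I) * conj (Q t) = -(conj (q1 (t * I)) * Q t) := by
    intro t
    have h1 : (q1 (t * I) * conj (Q t)).re = 0 := by
      rw [hQ]
      exact hcon t
    have h2 := Complex.add_conj (q1 (t * I) * conj (Q t))
    rw [h1, map_mul, Complex.conj_conj] at h2
    rw [eq_neg_iff_add_eq_zero, h2]
    simp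
  have hconst : ∀ t : ℝ, Q t / conj (Q t) = Q 0 / conj (Q 0) := by
    intro t
    refine is_const_of_deriv_eq_zero (f := fun t : ℝ => Q t / conj (Q t))
      (fun s => ((hQd s).div (hQcd s) (hQc0 s)).differentiableAt) (fun s => ?_) t 0
    refine Eq.trans ((hQd s).div (hQcd s) (hQc0 s)).deriv ?_
    rw [div_eq_zero_iff]
    left
    rw [map_mul, Complex.conj_I]
    linear_combination I * hre s
  have hreal : ∀ t : ℝ, Q t * conj (Q 0) = conj (Q t * conj (Q 0)) := by
    intro t
    have h1 := hconst t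
    rw [div_eq_div_iff (hQc0 t) (hQc0 0)] at h1
    rw [map_mul, Complex.conj_conj, h1]
    ring
  have hcont : Continuous fun t : ℝ => (Q t * conj (Q 0)).re := by
    have : Continuous Q := continuous_iff_continuousAt.2 fun t => (hQd t).continuousAt
    fun_prop
  have hne : ∀ t : ℝ, (Q t * conj (Q 0)).re ≠ 0 := by
    intro t h
    have h1 : Q t * conj (Q 0) ≠ 0 := mul_ne_zero (hQ0 t) (hQc0 0)
    apply h1
    have h2 : (Q t * conj (Q 0)).im = 0 := Complex.conj_eq_iff_im.1 (hreal t).symm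
    exact Complex.ext h h2
  have h0 : 0 < (Q 0 * conj (Q 0)).re := by
    rw [Complex.mul_conj]
    exact_mod_cast Complex.normSq_pos.2 (hQ0 0)
  have hpos : ∀ t : ℝ, 0 < (Q t * conj (Q 0)).re := by
    intro t
    by_contra h
    push Not at h
    obtain ⟨s, hs⟩ := mem_range_of_exists_le_of_exists_ge hcont ⟨t, h⟩ ⟨0, h0.le⟩
    exact hne s hs
  have hFd : ∀ t : ℝ, HasDerivAt (fun t : ℝ => (-I * F (t * I) * conj (Q 0)).re)
      (Q t * conj (Q 0)).re t := by
    intro t
    have h1 : HasDerivAt (fun t : ℝ => -I * F (t * I) * conj (Q 0)) (Q t * conj (Q 0)) t := by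
      have h2 := ((axis (hF t)).const_mul (-I)).mul_const (conj (Q 0))
      refine h2.congr_deriv ?_
      have e : q (t * I) = Q t := by rw [hQ]
      rw [e]
      linear_combination (-(Q t * conj (Q 0))) * Complex.I_sq
    exact (Complex.reCLM.hasFDerivAt (x := -I * F (t * I) * conj (Q 0))).comp_hasDerivAt t h1
  have hmono := strictMono_of_deriv_pos (f := fun t : ℝ => (-I * F (t * I) * conj (Q 0)).re)
    fun t => by
      rw [(hFd t).deriv]
      exact hpos t
  have h1 := hmono (show (0 : ℝ) < 2 * π by positivity)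
  have h2 := hper 0
  simp only at h1
  have e1 : ((2 * π : ℝ) : ℂ) * I = 0 + 2 * π * I := by
    push_cast
    ring
  have e2 : ((0 : ℝ) : ℂ) * I = 0 := by simp
  rw [e1, h2, e2] at h1
  exact lt_irrefl _ h1

end Pool.Agent.Y884.LM.Nez
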