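import Pool.Agent.Y195.LM.Stm

/-!
# Project LM: task SEC, the second order condition
-/

set_option autoImplicit false

open Set Complex MeasureTheory
open scoped ComplexConjugate Real ContDiff

namespace Pool.Agent.Y884.LM.Sec

open Pool.Agent.Y195.LM

theorem strip_open (a : ℝ) : IsOpen (Strip a) := by
  unfold Strip
  exact isOpen_lt (continuous_abs.comp Complex.continuous_re) continuous_const

theorem mem_strip {a τ θ : ℝ} (h : |τ| < a) : (τ : ℂ) + θ * I ∈ Strip a := by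
  unfold Strip
  simp [h]

/-- continuous periodic functions are bounded -/
theorem per_bdd {f : ℝ → ℝ} (hf : Continuous f) (hp : ∀ θ, f (θ + 2 * π) = f θ) :
    ∃ M, 0 < M ∧ ∀ θ, |f θ| ≤ M := by
  have h1 : Function.Periodic f (2 * π) := hp
  have h2 := h1.isBounded_of_continuous (by positivity : (2 * π : ℝ) ≠ 0) hf
  obtain ⟨M, hM⟩ := h2.exists_norm_le
  refine ⟨|M| + 1, by positivity, fun θ => ?_⟩
  have := hM (f θ) ⟨θ, rfl⟩
  rw [Real.norm_eq_abs] at this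
  linarith [le_abs_self M]

/-- a function with nonnegative second derivative -/
theorem taylor {φ φ1 φ2 : ℝ → ℝ} {δ : ℝ} (h1 : ∀ τ, 0 ≤ τ → τ ≤ δ → HasDerivAt φ (φ1 τ) τ)
    (h2 : ∀ τ, 0 ≤ τ → τ ≤ δ → HasDerivAt φ1 (φ2 τ) τ) (h3 : ∀ τ, 0 ≤ τ → τ ≤ δ → 0 ≤ φ2 τ)
    (h0 : φ 0 = 0) (h0' : φ1 0 = 0) {τ : ℝ} (ht : 0 ≤ τ) (ht' : τ ≤ δ) : 0 ≤ φ τ := by
  have m1 : MonotoneOn φ1 (Icc 0 δ) := by
    apply monotoneOn_of_deriv_nonneg (convex_Icc _ _)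
    · exact fun x hx => (h2 x hx.1 hx.2).continuousAt.continuousWithinAt
    · intro x hx
      rw [interior_Icc] at hx
      exact (h2 x hx.1.le hx.2.le).differentiableAt.differentiableWithinAt
    · intro x hx
      rw [interior_Icc] at hx
      rw [(h2 x hx.1.le hx.2.le).deriv]
      exact h3 x hx.1.le hx.2.le
  have p1 : ∀ x, 0 ≤ x → x ≤ δ → 0 ≤ φ1 x := fun x hx hx' => by
    have := m1 ⟨le_rfl, hx.trans hx'⟩ ⟨hx, hx'⟩ hx
    rwa [h0'] at this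
  have m0 : MonotoneOn φ (Icc 0 δ) := by
    apply monotoneOn_of_deriv_nonneg (convex_Icc _ _)
    · exact fun x hx => (h1 x hx.1 hx.2).continuousAt.continuousWithinAt
    · intro x hx
      rw [interior_Icc] at hx
      exact (h1 x hx.1.le hx.2.le).differentiableAt.differentiableWithinAt
    · intro x hx
      rw [interior_Icc] at hx
      rw [(h1 x hx.1.le hx.2.le).deriv]
      exact p1 x hx.1.le hx.2.le
  have := m0 ⟨le_rfl, ht.trans ht'⟩ ⟨ht, ht'⟩ ht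
  rwa [h0] at this

/-- the quadratic lower bound from a lower bound of the second derivative -/
theorem taylor2 {N N1 N2 : ℝ → ℝ} {δ K : ℝ} (hN : ∀ τ, |τ| ≤ δ → HasDerivAt N (N1 τ) τ)
    (hN1 : ∀ τ, |τ| ≤ δ → HasDerivAt N1 (N2 τ) τ) (hK : ∀ τ, |τ| ≤ δ → 2 * K ≤ N2 τ) {τ : ℝ}
    (hτ : |τ| ≤ δ) : N 0 + N1 0 * τ + K * τ ^ 2 ≤ N τ := by
  have hδ : 0 ≤ δ := (abs_nonneg _).trans hτ
  rcases le_total 0 τ with h | h
  · have key := taylor (φ := fun s => N s - N 0 - N1 0 * s - K * s ^ 2)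
      (φ1 := fun s => N1 s - N1 0 - 2 * K * s) (φ2 := fun s => N2 s - 2 * K) (δ := δ)
      (fun s hs hs' => by
        have h1 := (((hN s (by rwa [abs_of_nonneg hs])).sub_const (N 0)).sub
          ((hasDerivAt_id s).const_mul (N1 0))).sub (((hasDerivAt_id s).pow 2).const_mul K)
        refine h1.congr_deriv ?_
        simp only [id]
        ring)
      (fun s hs hs' => by
        have h1 := ((hN1 s (by rwa [abs_of_nonneg hs])).sub_const (N1 0)).sub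
          ((hasDerivAt_id s).const_mul (2 * K))
        refine h1.congr_deriv ?_
        ring)
      (fun s hs hs' => by
        have := hK s (by rwa [abs_of_nonneg hs])
        linarith)
      (by simp) (by simp) h (by rwa [abs_of_nonneg h] at hτ)
    linarith
  · have key := taylor (φ := fun s => N (-s) - N 0 + N1 0 * s - K * s ^ 2)
      (φ1 := fun s => -N1 (-s) + N1 0 - 2 * K * s) (φ2 := fun s => N2 (-s) - 2 * K) (δ := δ)
      (fun s hs hs' => by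
        have h0 : HasDerivAt (fun s => N (-s)) (N1 (-s) * (-1)) s :=
          HasDerivAt.comp s (hN (-s) (by rwa [abs_neg, abs_of_nonneg hs])) (hasDerivAt_neg s)
        have h1 := ((h0.sub_const (N 0)).add
          ((hasDerivAt_id s).const_mul (N1 0))).sub (((hasDerivAt_id s).pow 2).const_mul K)
        refine h1.congr_deriv ?_
        simp only [id]
        ring)
      (fun s hs hs' => by
        have h0 : HasDerivAt (fun s => N1 (-s)) (N2 (-s) * (-1)) s :=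
          HasDerivAt.comp s (hN1 (-s) (by rwa [abs_neg, abs_of_nonneg hs])) (hasDerivAt_neg s)
        have h1 := ((h0.neg).add_const (N1 0)).sub ((hasDerivAt_id s).const_mul (2 * K))
        refine h1.congr_deriv ?_
        ring)
      (fun s hs hs' => by
        have := hK (-s) (by rwa [abs_neg, abs_of_nonneg hs])
        linarith)
      (by simp) (by simp) (τ := -τ) (by linarith) (by rwa [abs_of_nonpos h] at hτ)
    simp only [neg_neg] at key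
    nlinarith

theorem smooth_axis {q : ℂ → ℂ} {a : ℝ} (ha : 0 < a) (hq : DifferentiableOn ℂ q (Strip a)) :
    ContDiff ℝ ∞ (fun t : ℝ => q (t * I)) := by
  have h1 : ContDiffOn ℂ ∞ q (Strip a) := hq.contDiffOn (strip_open a)
  have h2 : ContDiffOn ℝ ∞ q (Strip a) := h1.restrict_scalars ℝ
  have h3 : ContDiff ℝ ∞ (fun t : ℝ => (t : ℂ) * I) :=
    Complex.ofRealCLM.contDiff.mul contDiff_const
  refine h2.comp_contDiff h3 fun t => ?_
  have := mem_strip (a := a) (τ := 0) (θ := t) (by simpa using ha)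
  simpa using this

/-- restriction of a complex derivative to the imaginary axis -/
theorem axis {F : ℂ → ℂ} {F' : ℂ} {θ : ℝ} (h : HasDerivAt F F' (θ * I)) :
    HasDerivAt (fun t : ℝ => F (t * I)) (I * F') θ := by
  have h1 : HasDerivAt (fun t : ℝ => (t : ℂ) * I) (1 * I) θ :=
    (Complex.ofRealCLM.hasDerivAt (x := θ)).mul_const I
  have h2 := HasDerivAt.comp_of_eq θ h h1 rfl
  exact h2.congr_deriv (by ring)

/-- restriction of a complex derivative to a horizontal line -/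
theorem horiz {F : ℂ → ℂ} {F' : ℂ} {τ θ : ℝ} (h : HasDerivAt F F' (τ + θ * I)) :
    HasDerivAt (fun t : ℝ => F (t + θ * I)) F' τ := by
  have h1 : HasDerivAt (fun t : ℝ => (t : ℂ) + θ * I) 1 τ :=
    (Complex.ofRealCLM.hasDerivAt (x := τ)).add_const (θ * I)
  have h2 := HasDerivAt.comp_of_eq τ h h1 rfl
  exact h2.congr_deriv (by ring)

/-- periodicity of the derivative -/
theorem per_deriv {q q1 : ℂ → ℂ} {a : ℝ} (hq : ∀ w ∈ Strip a, HasDerivAt q (q1 w) w)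
    (hp : ∀ w ∈ Strip a, q (w + 2 * π * I) = q w) : ∀ w ∈ Strip a, q1 (w + 2 * π * I) = q1 w := by
  intro w hw
  have hw' : w + 2 * π * I ∈ Strip a := by
    unfold Strip at *
    simpa using hw
  have h1 : HasDerivAt (fun w => q (w + 2 * π * I)) (q1 (w + 2 * π * I)) w :=
    (hq _ hw').comp_add_const w (2 * π * I)
  have h2 : HasDerivAt q (q1 (w + 2 * π * I)) w := by
    refine h1.congr_of_eventuallyEq ?_
    filter_upwards [(strip_open a).mem_nhds hw] with v hv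
    exact (hp v hv).symm
  exact h2.unique (hq w hw)

theorem inner_eq (z w : ℂ) : inner ℝ z w = z.re * w.re + z.im * w.im := by
  rw [Complex.inner]
  simp
  ring

/-- SEC -/
theorem t : S_SEC := by
  intro q q1 q2 a ha hq hq1 hq0 hper hex
  -- smoothness
  have dq : DifferentiableOn ℂ q (Strip a) :=
    fun w hw => (hq w hw).differentiableAt.differentiableWithinAt
  have dq1 : DifferentiableOn ℂ q1 (Strip a) :=
    fun w hw => (hq1 w hw).differentiableAt.differentiableWithinAt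
  have dq2 : DifferentiableOn ℂ q2 (Strip a) :=
    (dq1.deriv (strip_open a)).congr fun w hw => ((hq1 w hw).deriv).symm
  have ax : ∀ t : ℝ, (t : ℂ) * I ∈ Strip a := by
    intro t
    have := mem_strip (a := a) (τ := 0) (θ := t) (by simpa using ha)
    simpa using this
  have per0 : ∀ w ∈ Strip a, q (w + 2 * π * I) = q w := fun w _ => hper w
  have per1 := per_deriv hq per0
  have per2 := per_deriv hq1 per1
  have eax : ∀ t : ℝ, ((t + 2 * π : ℝ) : ℂ) * I = t * I + 2 * π * I := by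
    intro t
    push_cast
    ring
  obtain ⟨Q, hQ⟩ : ∃ Q : ℝ → ℂ, Q = fun t : ℝ => q (t * I) := ⟨_, rfl⟩
  obtain ⟨Q1, hQ1⟩ : ∃ Q : ℝ → ℂ, Q = fun t : ℝ => q1 (t * I) := ⟨_, rfl⟩
  obtain ⟨Q2, hQ2⟩ : ∃ Q : ℝ → ℂ, Q = fun t : ℝ => q2 (t * I) := ⟨_, rfl⟩
  have sQ : ContDiff ℝ ∞ Q := hQ ▸ smooth_axis ha dq
  have sQ1 : ContDiff ℝ ∞ Q1 := hQ1 ▸ smooth_axis ha dq1
  have dQ : ∀ t, HasDerivAt Q (I * Q1 t) t := by
    intro t
    rw [hQ, hQ1]
    exact axis (hq _ (ax t))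
  have dQ1 : ∀ t, HasDerivAt Q1 (I * Q2 t) t := by
    intro t
    rw [hQ1, hQ2]
    exact axis (hq1 _ (ax t))
  have Q0 : ∀ t, Q t ≠ 0 := by
    intro t
    rw [hQ]
    exact hq0 _ (ax t)
  have pQ : ∀ t, Q (t + 2 * π) = Q t := by
    intro t
    rw [hQ]
    simp only [eax]
    exact per0 _ (ax t)
  have pQ1 : ∀ t, Q1 (t + 2 * π) = Q1 t := by
    intro t
    rw [hQ1]
    simp only [eax]
    exact per1 _ (ax t)
  -- the modulus on the axis
  obtain ⟨ρ, hρ⟩ : ∃ ρ : ℝ → ℝ, ρ = fun t => ‖Q t‖ := ⟨_, rfl⟩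
  have ρpos : ∀ t, 0 < ρ t := by
    intro t
    rw [hρ]
    exact norm_pos_iff.2 (Q0 t)
  have sρ : ContDiff ℝ ∞ ρ := hρ ▸ sQ.norm ℝ Q0
  obtain ⟨ρ', hρ'⟩ : ∃ ρ' : ℝ → ℝ, ρ' = deriv ρ := ⟨_, rfl⟩
  have sρ' : ContDiff ℝ ∞ ρ' := hρ' ▸ (contDiff_infty_iff_deriv.1 sρ).2
  have dρ : ∀ t, HasDerivAt ρ (ρ' t) t := by
    intro t
    rw [hρ']
    exact ((contDiff_infty_iff_deriv.1 sρ).1 t).hasDerivAt
  obtain ⟨ρ'', hρ''⟩ : ∃ ρ'' : ℝ → ℝ, ρ'' = deriv ρ' := ⟨_, rfl⟩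
  have sρ'' : ContDiff ℝ ∞ ρ'' := hρ'' ▸ (contDiff_infty_iff_deriv.1 sρ').2
  have dρ' : ∀ t, HasDerivAt ρ' (ρ'' t) t := by
    intro t
    rw [hρ'']
    exact ((contDiff_infty_iff_deriv.1 sρ').1 t).hasDerivAt
  have pρ : ∀ t, ρ (t + 2 * π) = ρ t := by
    intro t
    rw [hρ]
    simp only [pQ]
  have pρ' : ∀ t, ρ' (t + 2 * π) = ρ' t := by
    intro t
    have h1 : HasDerivAt (fun t => ρ (t + 2 * π)) (ρ' (t + 2 * π)) t :=
      (dρ (t + 2 * π)).comp_add_const t (2 * π)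
    rw [funext pρ] at h1
    exact h1.unique (dρ t)
  have pρ'' : ∀ t, ρ'' (t + 2 * π) = ρ'' t := by
    intro t
    have h1 : HasDerivAt (fun t => ρ' (t + 2 * π)) (ρ'' (t + 2 * π)) t :=
      (dρ' (t + 2 * π)).comp_add_const t (2 * π)
    rw [funext pρ'] at h1
    exact h1.unique (dρ' t)
  obtain ⟨r, hr⟩ : ∃ r : ℝ → ℝ, r = fun t => inner ℝ (Q t) (Q1 t) / ρ t := ⟨_, rfl⟩
  have sr : ContDiff ℝ ∞ r := by
    rw [hr]
    exact (sQ.inner ℝ sQ1).div sρ fun t => (ρpos t).ne'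
  have pr : ∀ t, r (t + 2 * π) = r t := by
    intro t
    rw [hr]
    simp only [pQ, pQ1, pρ]
  -- relations
  have rel0 : ∀ t, ρ t ^ 2 = (Q t).re ^ 2 + (Q t).im ^ 2 := by
    intro t
    rw [hρ]
    simp only
    rw [← Complex.normSq_eq_norm_sq, Complex.normSq_apply]
    ring
  have relr : ∀ t, ρ t * r t = (Q t).re * (Q1 t).re + (Q t).im * (Q1 t).im := by
    intro t
    rw [hr]
    simp only
    rw [mul_div_cancel₀ _ (ρpos t).ne', inner_eq]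
  have rel1 : ∀ t, ρ t * ρ' t = inner ℝ (Q t) (I * Q1 t) := by
    intro t
    have h1 : HasDerivAt (fun t => ρ t ^ 2) (2 * inner ℝ (Q t) (I * Q1 t)) t := by
      have := (dQ t).norm_sq
      rw [hρ]
      exact this
    have h2 : HasDerivAt (fun t => ρ t ^ 2) (2 * (ρ t * ρ' t)) t := by
      refine ((dρ t).pow 2).congr_deriv ?_
      simp
      ring
    have := h1.unique h2
    linarith
  have rel2 : ∀ t, ρ' t ^ 2 + ρ t * ρ'' t = ((Q1 t).re ^ 2 + (Q1 t).im ^ 2) -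
      ((Q t).re * (Q2 t).re + (Q t).im * (Q2 t).im) := by
    intro t
    have h1 : HasDerivAt (fun t => ρ t * ρ' t) (ρ' t * ρ' t + ρ t * ρ'' t) t :=
      (dρ t).mul (dρ' t)
    rw [funext rel1] at h1
    have h2 : HasDerivAt (fun t => inner ℝ (Q t) (I * Q1 t))
        (inner ℝ (Q t) (I * (I * Q2 t)) + inner ℝ (I * Q1 t) (I * Q1 t)) t :=
      (dQ t).inner ℝ ((dQ1 t).const_mul I)
    have h3 := h1.unique h2
    rw [inner_eq, inner_eq] at h3
    simp only [Complex.mul_re, Complex.mul_im, Complex.I_re, Complex.I_im] at h3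
    linear_combination h3
  have rel1' : ∀ t, ρ t * ρ' t = -(Q t).re * (Q1 t).im + (Q t).im * (Q1 t).re := by
    intro t
    rw [rel1, inner_eq]
    simp only [Complex.mul_re, Complex.mul_im, Complex.I_re, Complex.I_im]
    ring
  have rel3 : ∀ t, r t ^ 2 + ρ' t ^ 2 = (Q1 t).re ^ 2 + (Q1 t).im ^ 2 := by
    intro t
    have h1 : ρ t ^ 2 * (r t ^ 2 + ρ' t ^ 2) = ρ t ^ 2 * ((Q1 t).re ^ 2 + (Q1 t).im ^ 2) := by
      calc ρ t ^ 2 * (r t ^ 2 + ρ' t ^ 2) = (ρ t * r t) ^ 2 + (ρ t * ρ' t) ^ 2 := by ring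
        _ = ((Q t).re ^ 2 + (Q t).im ^ 2) * ((Q1 t).re ^ 2 + (Q1 t).im ^ 2) := by
          rw [relr, rel1']
          ring
        _ = _ := by rw [rel0]
    exact mul_left_cancel₀ (pow_ne_zero 2 (ρpos t).ne') h1
  -- the function z
  obtain ⟨J, hJ⟩ : ∃ J : ℝ, J = ∫ θ in (0 : ℝ)..(2 * π), r θ ^ 2 := ⟨_, rfl⟩
  have cr2 : Continuous fun θ => r θ ^ 2 := sr.continuous.pow 2
  have hJ0 : 0 < J := by
    rw [hJ]
    refine intervalIntegral.integral_pos (by positivity) cr2.continuousOn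
      (fun x _ => sq_nonneg _) ?_
    obtain ⟨θ, hθ⟩ := hex
    obtain ⟨y, hy, hyθ⟩ := (show Function.Periodic r (2 * π) from pr).exists_mem_Ico₀
      (by positivity) θ
    refine ⟨y, ⟨hy.1, hy.2.le⟩, ?_⟩
    rw [← hyθ]
    have : r θ ≠ 0 := by
      intro h
      apply hθ
      have h1 := relr θ
      rw [h, mul_zero] at h1
      rw [hQ, hQ1] at h1
      simp only at h1
      simp only [Complex.mul_re, Complex.conj_re, Complex.conj_im]
      linarith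
    positivity
  obtain ⟨C, hC⟩ : ∃ C : ℝ, C = 2 * π / J := ⟨_, rfl⟩
  have hC0 : 0 < C := by
    rw [hC]
    positivity
  have cz' : Continuous fun θ => -1 + C * r θ ^ 2 := continuous_const.add (continuous_const.mul cr2)
  obtain ⟨z, hz⟩ : ∃ z : ℝ → ℝ, z = fun θ => ∫ s in (0 : ℝ)..θ, (-1 + C * r s ^ 2) := ⟨_, rfl⟩
  have dz : ∀ θ, HasDerivAt z (-1 + C * r θ ^ 2) θ := by
    intro θ
    rw [hz]
    exact (cz'.integral_hasStrictDerivAt 0 θ).hasDerivAt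
  have pz : ∀ θ, z (θ + 2 * π) = z θ := by
    intro θ
    rw [hz]
    simp only
    rw [← intervalIntegral.integral_add_adjacent_intervals (cz'.intervalIntegrable 0 θ)
      (cz'.intervalIntegrable θ (θ + 2 * π))]
    have h1 : ∫ s in θ..(θ + 2 * π), (-1 + C * r s ^ 2) = 0 := by
      have hp : Function.Periodic (fun s => -1 + C * r s ^ 2) (2 * π) := by
        intro s
        simp only [pr]
      have h2 : ∫ s in (0 : ℝ)..(2 * π), (-1 + C * r s ^ 2) =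
          (∫ _ in (0 : ℝ)..(2 * π), (-1 : ℝ)) + ∫ s in (0 : ℝ)..(2 * π), C * r s ^ 2 :=
        intervalIntegral.integral_add (continuous_const.intervalIntegrable _ _)
          (Continuous.intervalIntegrable (by exact continuous_const.mul cr2) _ _)
      rw [hp.intervalIntegral_add_eq θ 0, zero_add, h2, intervalIntegral.integral_const,
        intervalIntegral.integral_const_mul, ← hJ, hC]
      field_simp
      simp
    rw [h1, add_zero]
  have sz' : ContDiff ℝ ∞ fun θ => -1 + C * r θ ^ 2 :=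
    contDiff_const.add (contDiff_const.mul (sr.pow 2))
  have sz : ContDiff ℝ ∞ z := by
    rw [contDiff_infty_iff_deriv]
    refine ⟨fun θ => (dz θ).differentiableAt, ?_⟩
    rw [show deriv z = fun θ => -1 + C * r θ ^ 2 from funext fun θ => (dz θ).deriv]
    exact sz'
  -- bounds
  obtain ⟨M0, hM0, bρ⟩ := per_bdd sρ.continuous pρ
  obtain ⟨Mi, hMi, bi⟩ := per_bdd (f := fun t => (ρ t)⁻¹)
    (sρ.continuous.inv₀ fun t => (ρpos t).ne') (fun t => by simp only [pρ])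
  obtain ⟨Mr, hMr, br⟩ := per_bdd sr.continuous pr
  obtain ⟨Mz, hMz, bz⟩ := per_bdd sz.continuous pz
  obtain ⟨m, hm⟩ : ∃ m : ℝ, m = Mi⁻¹ := ⟨_, rfl⟩
  have hm0 : 0 < m := by
    rw [hm]
    positivity
  have mρ : ∀ t, m ≤ ρ t := by
    intro t
    have h1 := bi t
    rw [abs_of_pos (inv_pos.2 (ρpos t))] at h1
    rw [hm]
    exact inv_le_of_inv_le₀ (ρpos t) h1
  have ρM : ∀ t, ρ t ≤ M0 := fun t => (le_abs_self _).trans (bρ t)
  obtain ⟨e, he⟩ : ∃ e : ℝ, e = (M0 ^ 3 * C + 4 * (M0 * Mz ^ 2))⁻¹ := ⟨_, rfl⟩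
  have hden : 0 < M0 ^ 3 * C + 4 * (M0 * Mz ^ 2) := by positivity
  have he0 : 0 < e := by
    rw [he]
    positivity
  have he1 : e * (M0 ^ 3 * C + 4 * (M0 * Mz ^ 2)) = 1 := by
    rw [he]
    exact inv_mul_cancel₀ hden.ne'
  have he2 : e * (M0 ^ 3 * C) ≤ 1 := by
    have : 0 ≤ e * (4 * (M0 * Mz ^ 2)) := by positivity
    linarith
  have he3 : e * (4 * (M0 * Mz ^ 2)) ≤ 1 := by
    have : 0 ≤ e * (M0 ^ 3 * C) := by positivity
    linarith
  obtain ⟨ε, hε⟩ : ∃ ε : ℝ, ε = e * m ^ 2 / 8 := ⟨_, rfl⟩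
  have hε0 : 0 < ε := by
    rw [hε]
    positivity
  obtain ⟨μ, hμ⟩ : ∃ μ : ℝ → ℝ, μ = fun θ => -ρ' θ + e * (ρ θ ^ 2 * z θ) := ⟨_, rfl⟩
  obtain ⟨μ1, hμ1⟩ : ∃ μ1 : ℝ → ℝ, μ1 = fun θ => -ρ'' θ + e * (2 * ρ θ * ρ' θ * z θ +
      ρ θ ^ 2 * (-1 + C * r θ ^ 2)) := ⟨_, rfl⟩
  have dμ : ∀ θ, HasDerivAt μ (μ1 θ) θ := by
    intro θ
    rw [hμ, hμ1]
    have h1 := (dρ' θ).neg.add ((((dρ θ).pow 2).mul (dz θ)).const_mul e)
    refine h1.congr_deriv ?_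
    simp
  have sμ1 : ContDiff ℝ ∞ μ1 := by
    rw [hμ1]
    exact sρ''.neg.add (contDiff_const.mul ((((contDiff_const.mul sρ).mul sρ').mul sz).add
      ((sρ.pow 2).mul sz')))
  have pμ : ∀ θ, μ (θ + 2 * π) = μ θ := by
    intro θ
    rw [hμ]
    simp only [pρ, pρ', pz]
  have pμ1 : ∀ θ, μ1 (θ + 2 * π) = μ1 θ := by
    intro θ
    rw [hμ1]
    simp only [pρ, pρ', pρ'', pz, pr]
  obtain ⟨Mκ, hMκ, bκ⟩ := per_bdd (f := fun θ => μ1 θ / 2 + ε)
    ((sμ1.continuous.div_const 2).add continuous_const) (fun θ => by simp only [pμ1])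
  -- the coefficient of τ²
  obtain ⟨Γ0, hΓ0⟩ : ∃ Γ0 : ℝ, Γ0 = e * m ^ 3 / 2 := ⟨_, rfl⟩
  have hΓpos : 0 < Γ0 := by
    rw [hΓ0]
    positivity
  have hΓ : ∀ θ, Γ0 ≤ (r θ ^ 2 - ρ θ * ρ'' θ) + (r θ ^ 2 + ρ' θ ^ 2) - r θ ^ 2 -
      2 * ρ θ * (μ1 θ / 2 + ε) - μ θ ^ 2 := by
    intro θ
    have e1 : (r θ ^ 2 - ρ θ * ρ'' θ) + (r θ ^ 2 + ρ' θ ^ 2) - r θ ^ 2 -
        2 * ρ θ * (μ1 θ / 2 + ε) - μ θ ^ 2 =
        r θ ^ 2 * (1 - e * (ρ θ ^ 3 * C)) + e * ρ θ ^ 3 * (1 - e * (ρ θ * z θ ^ 2)) -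
          2 * ε * ρ θ := by
      rw [hμ, hμ1]
      ring
    rw [e1, hΓ0, hε]
    have hp := ρpos θ
    have h1 := mρ θ
    have h2 := ρM θ
    have h3 : ρ θ ^ 3 ≤ M0 ^ 3 := pow_le_pow_left₀ hp.le h2 3
    have h4 : e * (ρ θ ^ 3 * C) ≤ 1 := by
      refine le_trans ?_ he2
      gcongr
    have h5 : z θ ^ 2 ≤ Mz ^ 2 := by
      rw [← sq_abs]
      exact pow_le_pow_left₀ (abs_nonneg _) (bz θ) 2
    have h6 : e * (ρ θ * z θ ^ 2) ≤ 1 / 4 := by
      have : e * (ρ θ * z θ ^ 2) ≤ e * (M0 * Mz ^ 2) := by gcongr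
      linarith
    have h7 : m ^ 3 ≤ ρ θ ^ 3 := pow_le_pow_left₀ hm0.le h1 3
    have h8 : m ^ 2 * ρ θ ≤ ρ θ ^ 3 := by
      have : m ^ 2 ≤ ρ θ ^ 2 := pow_le_pow_left₀ hm0.le h1 2
      nlinarith
    have h9 : 0 ≤ r θ ^ 2 * (1 - e * (ρ θ ^ 3 * C)) :=
      mul_nonneg (sq_nonneg _) (by linarith)
    have h10 : e * ρ θ ^ 3 * (3 / 4) ≤ e * ρ θ ^ 3 * (1 - e * (ρ θ * z θ ^ 2)) :=
      mul_le_mul_of_nonneg_left (by linarith) (by positivity)
    have h11 : e * (m ^ 2 * ρ θ) ≤ e * ρ θ ^ 3 := mul_le_mul_of_nonneg_left h8 he0.le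
    have h12 : e * m ^ 3 ≤ e * ρ θ ^ 3 := mul_le_mul_of_nonneg_left h7 he0.le
    nlinarith
  -- uniform continuity of the second derivative
  obtain ⟨B, hB⟩ : ∃ B : ℝ × ℝ → ℝ, B = fun p : ℝ × ℝ =>
      inner ℝ (q (p.1 + p.2 * I)) (q2 (p.1 + p.2 * I)) +
      inner ℝ (q1 (p.1 + p.2 * I)) (q1 (p.1 + p.2 * I)) := ⟨_, rfl⟩
  have cB : ContinuousOn B (Icc (-(a / 2)) (a / 2) ×ˢ Icc 0 (2 * π)) := by
    have hm : MapsTo (fun p : ℝ × ℝ => (p.1 : ℂ) + p.2 * I)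
        (Icc (-(a / 2)) (a / 2) ×ˢ Icc 0 (2 * π)) (Strip a) := by
      rintro ⟨τ, θ⟩ ⟨h1, -⟩
      refine mem_strip ?_
      rw [abs_lt]
      simp only [mem_Icc] at h1
      constructor <;> linarith
    have hc : ContinuousOn (fun p : ℝ × ℝ => (p.1 : ℂ) + p.2 * I)
        (Icc (-(a / 2)) (a / 2) ×ˢ Icc 0 (2 * π)) := by
      apply Continuous.continuousOn
      fun_prop
    rw [hB]
    exact ((dq.continuousOn.comp hc hm).inner (dq2.continuousOn.comp hc hm)).add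
      ((dq1.continuousOn.comp hc hm).inner (dq1.continuousOn.comp hc hm))
  have uB := (isCompact_Icc.prod isCompact_Icc).uniformContinuousOn_of_continuous cB
  rw [Metric.uniformContinuousOn_iff] at uB
  obtain ⟨δ0, hδ0, huB⟩ := uB (Γ0 / 4) (by positivity)
  have pB : ∀ τ θ : ℝ, |τ| < a → B (τ, θ + 2 * π) = B (τ, θ) := by
    intro τ θ hτ
    have hw : (τ : ℂ) + θ * I ∈ Strip a := mem_strip hτ
    have e1 : (τ : ℂ) + ((θ + 2 * π : ℝ) : ℂ) * I = (τ : ℂ) + θ * I + 2 * π * I := by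
      push_cast
      ring
    rw [hB]
    simp only
    rw [e1, per0 _ hw, per1 _ hw, per2 _ hw]
  have huB' : ∀ τ θ : ℝ, |τ| ≤ a / 2 → |τ| < δ0 → |B (τ, θ) - B (0, θ)| ≤ Γ0 / 4 := by
    intro τ θ h1 h2
    have h1' : |τ| < a := by linarith
    have hp : Function.Periodic (fun θ => |B (τ, θ) - B (0, θ)|) (2 * π) := by
      intro θ
      simp only [pB τ θ h1', pB 0 θ (by simpa using ha)]
    obtain ⟨y, hy, hyθ⟩ := hp.exists_mem_Ico₀ (by positivity) θ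
    rw [hyθ]
    have h3 := huB (τ, y) ⟨⟨(abs_le.1 h1).1, (abs_le.1 h1).2⟩, hy.1, hy.2.le⟩ (0, y)
      ⟨⟨by linarith, by linarith⟩, hy.1, hy.2.le⟩ (by
        rw [Prod.dist_eq]
        simp only [dist_self, Real.dist_eq, sub_zero]
        exact max_lt h2 hδ0)
    rw [Real.dist_eq] at h3
    exact h3.le
  obtain ⟨L, hL⟩ : ∃ L : ℝ, L = 2 * Mr * Mκ + Mκ ^ 2 := ⟨_, rfl⟩
  have hL0 : 0 < L := by
    rw [hL]
    positivity
  obtain ⟨δ, hδ⟩ : ∃ δ : ℝ, δ = min (min (a / 2) (δ0 / 2)) (min 1 (Γ0 / 4 / L)) := ⟨_, rfl⟩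
  have hδpos : 0 < δ := by
    rw [hδ]
    positivity
  have hδa : δ ≤ a / 2 := hδ ▸ (min_le_left _ _).trans (min_le_left _ _)
  have hδδ : δ ≤ δ0 / 2 := hδ ▸ (min_le_left _ _).trans (min_le_right _ _)
  have hδ1 : δ ≤ 1 := hδ ▸ (min_le_right _ _).trans (min_le_left _ _)
  have hδL : δ ≤ Γ0 / 4 / L := hδ ▸ (min_le_right _ _).trans (min_le_right _ _)
  have hδL' : L * δ ≤ Γ0 / 4 := by
    rw [le_div_iff₀ hL0] at hδL
    linarith
  refine ⟨ε, Γ0 / 4, δ, μ, μ1, hε0, by positivity, hδpos, by linarith, dμ, sμ1.of_le ?_, pμ, pμ1,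
    fun τ θ hτ => ?_⟩
  · exact_mod_cast le_top
  have hr0 : r0 q θ = ρ θ := by
    unfold r0
    rw [hρ, hQ]
  have hr1 : Pool.Agent.Y195.LM.r1 q q1 θ = r θ := by
    unfold Pool.Agent.Y195.LM.r1
    rw [hr]
    simp only
    rw [inner_eq, hρ, hQ, hQ1]
    simp only [Complex.mul_re, Complex.conj_re, Complex.conj_im]
    congr 1
    ring
  rw [hr0, hr1]
  have hin : ∀ s : ℝ, |s| ≤ δ → (s : ℂ) + θ * I ∈ Strip a := fun s hs =>
    mem_strip (lt_of_le_of_lt hs (by linarith))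
  have e0 : ((0 : ℝ) : ℂ) + θ * I = θ * I := by simp
  have hB0 : B (0, θ) = (r θ ^ 2 - ρ θ * ρ'' θ) + (r θ ^ 2 + ρ' θ ^ 2) := by
    rw [hB]
    simp only
    rw [e0, inner_eq, inner_eq]
    have k2 := rel2 θ
    have k3 := rel3 θ
    rw [hQ, hQ1, hQ2] at k2
    rw [hQ1] at k3
    simp only at k2 k3
    linear_combination k2 - k3 - k3
  have key := taylor2 (N := fun s : ℝ => ‖q (s + θ * I)‖ ^ 2)
    (N1 := fun s : ℝ => 2 * inner ℝ (q (s + θ * I)) (q1 (s + θ * I)))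
    (N2 := fun s : ℝ => 2 * B (s, θ)) (δ := δ) (K := B (0, θ) - Γ0 / 4)
    (fun s hs => (horiz (hq _ (hin s hs))).norm_sq)
    (fun s hs => by
      have := ((horiz (hq _ (hin s hs))).inner ℝ (horiz (hq1 _ (hin s hs)))).const_mul 2
      rw [hB]
      exact this)
    (fun s hs => by
      have := (abs_le.1 (huB' s θ (hs.trans hδa) (lt_of_le_of_lt hs (by linarith)))).1
      linarith) hτ
  simp only [e0] at key
  have hN0 : ‖q (θ * I)‖ ^ 2 = ρ θ ^ 2 := by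
    rw [hρ, hQ]
  have hN1 : inner ℝ (q (θ * I)) (q1 (θ * I)) = ρ θ * r θ := by
    rw [relr, inner_eq, hQ, hQ1]
  rw [hN0, hN1, hB0] at key
  have hΓθ := hΓ θ
  obtain ⟨κ, hκ⟩ : ∃ κ, κ = μ1 θ / 2 + ε := ⟨_, rfl⟩
  rw [← hκ] at hΓθ ⊢
  have bκθ : |κ| ≤ Mκ := hκ ▸ bκ θ
  have hτ2 : 0 ≤ τ ^ 2 := sq_nonneg _
  have c1 : |2 * r θ * κ * τ| ≤ 2 * Mr * Mκ * δ := by
    rw [abs_mul, abs_mul, abs_mul, abs_two]
    have := br θ
    gcongr
  have c2 : κ ^ 2 * τ ^ 2 ≤ Mκ ^ 2 * δ := by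
    have h1 : κ ^ 2 ≤ Mκ ^ 2 := by
      rw [← sq_abs]
      exact pow_le_pow_left₀ (abs_nonneg _) bκθ 2
    have h2 : τ ^ 2 ≤ δ := by
      rw [← sq_abs]
      have h3 : |τ| ^ 2 ≤ δ ^ 2 := pow_le_pow_left₀ (abs_nonneg _) hτ 2
      have h4 : δ ^ 2 ≤ δ * 1 := by
        rw [sq]
        exact mul_le_mul_of_nonneg_left hδ1 hδpos.le
      linarith
    exact mul_le_mul h1 h2 hτ2 (by positivity)
  have c3 : 2 * r θ * κ * τ + κ ^ 2 * τ ^ 2 ≤ Γ0 / 4 := by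
    have h1 := (le_abs_self _).trans c1
    rw [hL] at hδL'
    linarith
  have c4 : (2 * r θ * κ * τ + κ ^ 2 * τ ^ 2) * τ ^ 2 ≤ Γ0 / 4 * τ ^ 2 :=
    mul_le_mul_of_nonneg_right c3 hτ2
  have c5 := mul_le_mul_of_nonneg_right hΓθ hτ2
  have e2 : (ρ θ + r θ * τ + κ * τ ^ 2) ^ 2 + (μ θ * τ) ^ 2 =
      ρ θ ^ 2 + 2 * (ρ θ * r θ) * τ + (r θ ^ 2 + 2 * ρ θ * κ + μ θ ^ 2) * τ ^ 2 +
        (2 * r θ * κ * τ + κ ^ 2 * τ ^ 2) * τ ^ 2 := by ring
  rw [e2]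
  have c6 : (r θ ^ 2 + 2 * ρ θ * κ + μ θ ^ 2) * τ ^ 2 + Γ0 * τ ^ 2 ≤
      (r θ ^ 2 - ρ θ * ρ'' θ + (r θ ^ 2 + ρ' θ ^ 2)) * τ ^ 2 := by
    rw [← add_mul]
    refine mul_le_mul_of_nonneg_right ?_ hτ2
    linarith
  have c7 : (r θ ^ 2 - ρ θ * ρ'' θ + (r θ ^ 2 + ρ' θ ^ 2) - Γ0 / 4) * τ ^ 2 =
      (r θ ^ 2 - ρ θ * ρ'' θ + (r θ ^ 2 + ρ' θ ^ 2)) * τ ^ 2 - Γ0 / 4 * τ ^ 2 := by ring
  rw [c7] at key
  have c8 : 0 ≤ Γ0 * τ ^ 2 := by positivity
  linarith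

end Pool.Agent.Y884.LM.Sec
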