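import Pool.Agent.Y195.LM.Stm

/-!
# Project LM: task FAM
-/

set_option autoImplicit false

open Set Complex Metric
open scoped ComplexConjugate Real

namespace Pool.Agent.Y884.LM.Fam

open Pool.Agent.Y195.LM

theorem pow_sub_le (n : ℕ) {X Y : ℂ} (hX : ‖X‖ = 1) (hY : ‖Y‖ = 1) :
    ‖X ^ n - Y ^ n‖ ≤ n * ‖X - Y‖ := by
  rw [← Commute.geom_sum₂_mul (Commute.all X Y) n, norm_mul]
  refine mul_le_mul_of_nonneg_right ?_ (norm_nonneg _)
  refine (norm_sum_le _ _).trans ?_
  have h : ∀ i ∈ Finset.range n, ‖X ^ i * Y ^ (n - 1 - i)‖ ≤ 1 := by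
    intro i _
    rw [norm_mul, norm_pow, norm_pow, hX, hY, one_pow, one_pow, one_mul]
  refine (Finset.sum_le_sum h).trans ?_
  simp

theorem d1 (a : ℝ) (n : ℕ) (X : ℂ) :
    HasDerivAt (fun X : ℂ => X + a * X ^ (n + 1)) (1 + (n + 1) * a * X ^ n) X := by
  have h1 := (hasDerivAt_id X).add (((hasDerivAt_id X).pow (n + 1)).const_mul (a : ℂ))
  refine h1.congr_deriv ?_
  simp only [id, Nat.add_sub_cancel, mul_one]
  push_cast
  ring

theorem d2 (a : ℝ) (n : ℕ) (X : ℂ) :
    HasDerivAt (fun X : ℂ => 1 + (n + 1) * a * X ^ n) ((n + 1) * a * (n * X ^ (n - 1))) X := by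
  have h1 := (((hasDerivAt_id X).pow n).const_mul (((n : ℂ) + 1) * a)).const_add (1 : ℂ)
  refine h1.congr_deriv ?_
  simp only [id, mul_one]

/-- FAM -/
theorem t : S_FAM := by
  intro j a hj ha1 ha2 f
  have hn : (0 : ℝ) < 2 * j + 1 := by positivity
  have ha0 : 0 < a := lt_of_lt_of_le (by positivity) ha1
  have hna : (2 * j + 1) * a < 1 := by
    rw [lt_div_iff₀ hn] at ha2
    linarith
  have hn2 : 1 ≤ (2 * (j : ℝ) + 1) ^ 2 * a := by
    rw [div_le_iff₀ (by positivity)] at ha1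
    linarith
  have hder : ∀ X, deriv f X = 1 + ((2 * j : ℕ) + 1) * a * X ^ (2 * j) := fun X =>
    (d1 a (2 * j) X).deriv
  have hder' : deriv f = fun X => 1 + ((2 * j : ℕ) + 1) * (a : ℂ) * X ^ (2 * j) := funext hder
  have hder2 : ∀ X, deriv (deriv f) X = ((2 * j : ℕ) + 1) * a * ((2 * j : ℕ) * X ^ (2 * j - 1)) := by
    intro X
    rw [hder']
    exact (d2 a (2 * j) X).deriv
  have hsmall : ∀ X : ℂ, ‖X‖ = 1 → ‖(((2 * j : ℕ) : ℂ) + 1) * a * X ^ (2 * j)‖ < 1 := by
    intro X hX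
    rw [norm_mul, norm_mul, norm_pow, hX, one_pow, mul_one, Complex.norm_real, Real.norm_eq_abs,
      abs_of_pos ha0]
    have : ‖((2 * j : ℕ) : ℂ) + 1‖ = 2 * j + 1 := by
      have e : ((2 * j : ℕ) : ℂ) + 1 = ((2 * j + 1 : ℕ) : ℂ) := by push_cast; ring
      rw [e, Complex.norm_natCast]
      push_cast
      ring
    rw [this]
    exact hna
  have hne : ∀ X : ℂ, ‖X‖ = 1 → deriv f X ≠ 0 := by
    intro X hX h
    rw [hder] at h
    have h1 := hsmall X hX
    have h2 : (((2 * j : ℕ) : ℂ) + 1) * a * X ^ (2 * j) = -1 := by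
      linear_combination h
    rw [h2, norm_neg, norm_one] at h1
    exact lt_irrefl _ h1
  refine ⟨fun X => ?_, fun X => ?_, ?_, hne, ?_⟩
  · exact analyticAt_id.add (analyticAt_const.mul (analyticAt_id.pow _))
  · show -X + a * (-X) ^ (2 * j + 1) = -(X + a * X ^ (2 * j + 1))
    rw [Odd.neg_pow ⟨j, rfl⟩]
    ring
  · intro X hX Y hY h
    rw [mem_sphere_zero_iff_norm] at hX hY
    by_contra hXY
    have h1 : X - Y = -(a * (X ^ (2 * j + 1) - Y ^ (2 * j + 1))) := by
      have h2 : X + a * X ^ (2 * j + 1) = Y + a * Y ^ (2 * j + 1) := h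
      linear_combination h2
    have h3 := pow_sub_le (2 * j + 1) hX hY
    have h4 : ‖X - Y‖ = a * ‖X ^ (2 * j + 1) - Y ^ (2 * j + 1)‖ := by
      conv_lhs => rw [h1]
      rw [norm_neg, norm_mul, Complex.norm_real, Real.norm_eq_abs, abs_of_pos ha0]
    have h5 : 0 < ‖X - Y‖ := norm_pos_iff.2 (sub_ne_zero.2 hXY)
    push_cast at h3
    nlinarith
  · -- the point of zero curvature
    obtain ⟨φ, hφ⟩ : ∃ φ : ℝ → ℝ, φ = fun s : ℝ =>
        (1 + (2 * j : ℝ) * ((2 * j + 1) * a) * Complex.exp (s * I) /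
          (1 + ((2 * j + 1) * a) * Complex.exp (s * I))).re := ⟨_, rfl⟩
    have hden : ∀ s : ℝ, (1 + ((2 * (j : ℂ) + 1) * a) * Complex.exp (s * I)) ≠ 0 := by
      intro s h
      have h1 : ((2 * (j : ℂ) + 1) * a) * Complex.exp (s * I) = -1 := by linear_combination h
      have h2 : ‖((2 * (j : ℂ) + 1) * a) * Complex.exp (s * I)‖ = (2 * j + 1) * a := by
        have e : ((2 * (j : ℂ) + 1) * a) = (((2 * j + 1) * a : ℝ) : ℂ) := by push_cast; ring
        rw [norm_mul, Complex.norm_exp_ofReal_mul_I, mul_one, e, Complex.norm_real,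
          Real.norm_eq_abs, abs_of_pos (by positivity)]
      rw [h1, norm_neg, norm_one] at h2
      linarith
    have hcont : Continuous φ := by
      rw [hφ]
      refine Complex.continuous_re.comp ?_
      refine continuous_const.add (Continuous.div ?_ ?_ hden)
      · fun_prop
      · fun_prop
    have h0 : 0 ≤ φ 0 := by
      have e : φ 0 = 1 + (2 * j) * ((2 * j + 1) * a) / (1 + (2 * j + 1) * a) := by
        rw [hφ]
        simp only [ofReal_zero, zero_mul, Complex.exp_zero, mul_one]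
        have e1 : (1 + (2 * (j : ℂ)) * ((2 * j + 1) * a) / (1 + (2 * j + 1) * a)) =
            ((1 + (2 * j) * ((2 * j + 1) * a) / (1 + (2 * j + 1) * a) : ℝ) : ℂ) := by
          push_cast
          ring
        push_cast at *
        rw [e1]
        exact_mod_cast Complex.ofReal_re _
      rw [e]
      positivity
    have hπ : φ π ≤ 0 := by
      have e : φ π = 1 - (2 * j) * ((2 * j + 1) * a) / (1 - (2 * j + 1) * a) := by
        rw [hφ]
        simp only [Complex.exp_pi_mul_I]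
        have e1 : (1 + (2 * (j : ℂ)) * ((2 * j + 1) * a) * (-1) / (1 + (2 * j + 1) * a * (-1))) =
            ((1 - (2 * j) * ((2 * j + 1) * a) / (1 - (2 * j + 1) * a) : ℝ) : ℂ) := by
          push_cast
          ring
        push_cast at *
        rw [e1]
        exact_mod_cast Complex.ofReal_re _
      rw [e]
      have h1 : 0 < 1 - (2 * j + 1) * a := by linarith
      rw [sub_nonpos, one_le_div h1]
      nlinarith
    obtain ⟨s, hs⟩ := mem_range_of_exists_le_of_exists_ge hcont ⟨π, hπ⟩ ⟨0, h0⟩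
    have hj1 : (j : ℂ) ≠ 0 := by
      have : j ≠ 0 := by omega
      exact_mod_cast this
    refine ⟨Complex.exp (((s / (2 * j) : ℝ) : ℂ) * I), Complex.norm_exp_ofReal_mul_I _, ?_⟩
    obtain ⟨X, hX⟩ : ∃ X, X = Complex.exp (((s / (2 * j) : ℝ) : ℂ) * I) := ⟨_, rfl⟩
    rw [← hX]
    have hXp : X ^ (2 * j) = Complex.exp (s * I) := by
      rw [hX, ← Complex.exp_nat_mul]
      congr 1
      push_cast
      field_simp
    have hXX : X * X ^ (2 * j - 1) = X ^ (2 * j) := by
      rw [← pow_succ']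
      congr 1
      omega
    rw [hder, hder2, ← hs, hφ]
    simp only
    congr 1
    rw [hXp]
    have e : X * ((((2 * j : ℕ) : ℂ) + 1) * a * ((2 * j : ℕ) * X ^ (2 * j - 1))) =
        (2 * j) * ((2 * j + 1) * a) * Complex.exp (s * I) := by
      rw [← hXp, ← hXX]
      push_cast
      ring
    rw [e]
    push_cast
    ring

end Pool.Agent.Y884.LM.Fam
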