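import Pool.Agent.Y195.LM.Stm

/-!
# Project LM: task PRIM
-/

set_option autoImplicit false

open Set Complex

namespace Pool.Agent.Y884.LM.Prim

open Pool.Agent.Y195.LM

theorem strip_open (a : ℝ) : IsOpen (Strip a) := by
  unfold Strip
  exact isOpen_lt (continuous_abs.comp Complex.continuous_re) continuous_const

theorem strip_convex (a : ℝ) : Convex ℝ (Strip a) := by
  intro x hx y hy s t hs ht hst
  unfold Strip at *
  simp only [mem_ofPred_eq] at *
  rw [abs_lt] at *
  simp only [add_re, real_smul, mul_re, ofReal_re, ofReal_im, zero_mul, sub_zero]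
  constructor
  · rcases hs.eq_or_lt with h | h
    · have : t = 1 := by linarith
      rw [← h, this]
      linarith
    · nlinarith
  · rcases hs.eq_or_lt with h | h
    · have : t = 1 := by linarith
      rw [← h, this]
      linarith
    · nlinarith

/-- PRIM -/
theorem t : S_PRIM := by
  intro a c _ hc
  obtain ⟨G, hG⟩ := (strip_convex a).exists_forall_hasDerivWithinAt hc
  exact ⟨G, fun w hw => (hG w hw).hasDerivAt ((strip_open a).mem_nhds hw)⟩

end Pool.Agent.Y884.LM.Prim
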